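import Pool.Agent.H12.UCR.Stmts

/-!
# Board `ucr`, row WYL: equidistribution implies the convergence of the averaged coefficients
-/

set_option autoImplicit false

open MeasureTheory Filter Topology

namespace Pool.UCR

theorem wyl_four (j : ℤ) (a : ℕ) (x : UnitAddCircle) :
    (fourier j (a • x) : ℂ) = fourier (j * (a : ℤ)) x := by
  rw [fourier_apply, fourier_apply, mul_smul, natCast_zsmul]

theorem wyl_int {j : ℤ} (hj : j ≠ 0) :
    ∫ x, (fourier j x : ℂ) ∂(volume : Measure UnitAddCircle) = 0 :=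
  integral_eq_zero_of_add_right_eq_neg (μ := (volume : Measure UnitAddCircle))
    (fourier_add_half_inv_index hj one_pos)

theorem wyl_cint (ν : Measure UnitAddCircle) [IsFiniteMeasure ν] {f : UnitAddCircle → ℂ}
    (hf : Continuous f) : Integrable f ν :=
  hf.integrable_of_hasCompactSupport (HasCompactSupport.of_compactSpace f)

theorem wyl_thm : WYLS := by
  intro p q μ hE k hk
  have hk0 : (k : ℤ) ≠ 0 := by exact_mod_cast (by omega : k ≠ 0)
  let f1 : C(UnitAddCircle, ℝ) := ⟨fun x => (fourier (k : ℤ) x : ℂ).re, by fun_prop⟩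
  let f2 : C(UnitAddCircle, ℝ) := ⟨fun x => (fourier (k : ℤ) x : ℂ).im, by fun_prop⟩
  have t1 := hE f1
  have t2 := hE f2
  have z := wyl_int hk0
  have hc : Continuous (fun x : UnitAddCircle => (fourier (k : ℤ) x : ℂ)) := by fun_prop
  have i0 := wyl_cint (volume : Measure UnitAddCircle) hc
  have z1 : ∫ x, f1 x ∂(volume : Measure UnitAddCircle) = 0 := by
    have h : ∫ x, f1 x ∂(volume : Measure UnitAddCircle) = RCLike.re (K := ℂ)
        (∫ x, (fourier (k : ℤ) x : ℂ) ∂(volume : Measure UnitAddCircle)) := integral_re i0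
    rw [h, z]
    simp
  have z2 : ∫ x, f2 x ∂(volume : Measure UnitAddCircle) = 0 := by
    have h : ∫ x, f2 x ∂(volume : Measure UnitAddCircle) = RCLike.im (K := ℂ)
        (∫ x, (fourier (k : ℤ) x : ℂ) ∂(volume : Measure UnitAddCircle)) := integral_im i0
    rw [h, z]
    simp
  rw [z1] at t1
  rw [z2] at t2
  have key : ∀ N : ℕ, Av q k N (fc μ) =
      ((((N : ℝ)⁻¹ * ∑ n ∈ Finset.range N, ∫ x, f1 ((q ^ n) • x)
        ∂((μ.1 : ProbabilityMeasure UnitAddCircle) : Measure UnitAddCircle)) : ℝ) : ℂ) +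
      ((((N : ℝ)⁻¹ * ∑ n ∈ Finset.range N, ∫ x, f2 ((q ^ n) • x)
        ∂((μ.1 : ProbabilityMeasure UnitAddCircle) : Measure UnitAddCircle)) : ℝ) : ℂ) *
        Complex.I := by
    intro N
    have e : ∀ n : ℕ, fc μ (k * q ^ n) =
        ((∫ x, f1 ((q ^ n) • x)
          ∂((μ.1 : ProbabilityMeasure UnitAddCircle) : Measure UnitAddCircle) : ℝ) : ℂ) +
        ((∫ x, f2 ((q ^ n) • x)
          ∂((μ.1 : ProbabilityMeasure UnitAddCircle) : Measure UnitAddCircle) : ℝ) : ℂ) *
          Complex.I := by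
      intro n
      have hc' : Continuous (fun x : UnitAddCircle => (fourier (k : ℤ) ((q ^ n) • x) : ℂ)) := by
        fun_prop
      have i1 := wyl_cint ((μ.1 : ProbabilityMeasure UnitAddCircle) : Measure UnitAddCircle) hc'
      have h := integral_re_add_im i1
      have h' : fc μ (k * q ^ n) = ∫ x, (fourier (k : ℤ) ((q ^ n) • x) : ℂ)
          ∂((μ.1 : ProbabilityMeasure UnitAddCircle) : Measure UnitAddCircle) := by
        unfold fc
        refine integral_congr_ae (Eventually.of_forall fun x => ?_)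
        simp only []
        rw [wyl_four]
        push_cast
        rfl
      rw [h', ← h]
      rfl
    unfold Av
    simp only [e]
    rw [Finset.sum_add_distrib, ← Finset.sum_mul]
    push_cast
    ring
  have t3 : Tendsto (fun N : ℕ => ((((N : ℝ)⁻¹ * ∑ n ∈ Finset.range N, ∫ x, f1 ((q ^ n) • x)
        ∂((μ.1 : ProbabilityMeasure UnitAddCircle) : Measure UnitAddCircle)) : ℝ) : ℂ)) atTop
      (𝓝 ((0 : ℝ) : ℂ)) := (Complex.continuous_ofReal.tendsto 0).comp t1
  have t4 : Tendsto (fun N : ℕ => ((((N : ℝ)⁻¹ * ∑ n ∈ Finset.range N, ∫ x, f2 ((q ^ n) • x)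
        ∂((μ.1 : ProbabilityMeasure UnitAddCircle) : Measure UnitAddCircle)) : ℝ) : ℂ)) atTop
      (𝓝 ((0 : ℝ) : ℂ)) := (Complex.continuous_ofReal.tendsto 0).comp t2
  have t5 := t3.add (t4.mul_const Complex.I)
  simp only [Complex.ofReal_zero, zero_mul, add_zero] at t5
  refine t5.congr fun N => ?_
  rw [key N]

end Pool.UCR
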