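import Pool.Agent.H12.UCR.Stmts

/-!
# Board `ucr`, row POW: the averages along the powers of `q` and of `q ^ m`
-/

set_option autoImplicit false

open MeasureTheory Filter Topology

namespace Pool.UCR

theorem pow_four (j : ℤ) (a : ℕ) (x : UnitAddCircle) :
    (fourier j (a • x) : ℂ) = fourier (j * (a : ℤ)) x := by
  rw [fourier_apply, fourier_apply, mul_smul, natCast_zsmul]

theorem pow_cint (ν : Measure UnitAddCircle) [IsFiniteMeasure ν] {E : Type} [NormedAddCommGroup E]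
    {f : UnitAddCircle → E} (hf : Continuous f) : Integrable f ν :=
  hf.integrable_of_hasCompactSupport (HasCompactSupport.of_compactSpace f)

/-- integral coefficients at integers -/
noncomputable def powC (ν : Measure UnitAddCircle) (j : ℤ) : ℂ := ∫ x, (fourier j x : ℂ) ∂ν

theorem powC_zero (ν : Measure UnitAddCircle) [IsProbabilityMeasure ν] : powC ν 0 = 1 := by
  unfold powC
  simp

theorem powC_neg (ν : Measure UnitAddCircle) (j : ℤ) :
    powC ν (-j) = (starRingEnd ℂ) (powC ν j) := by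
  unfold powC
  rw [← integral_conj]
  refine integral_congr_ae (Eventually.of_forall fun x => ?_)
  simp only []
  rw [fourier_neg]

/-- Cauchy-Schwarz for a probability measure -/
theorem pow_cs (ν : Measure UnitAddCircle) [IsProbabilityMeasure ν] {f : UnitAddCircle → ℂ}
    (hf : Continuous f) : ‖∫ x, f x ∂ν‖ ^ 2 ≤ ∫ x, ‖f x‖ ^ 2 ∂ν := by
  set a : ℝ := ∫ x, ‖f x‖ ∂ν with ha
  have h1 : ‖∫ x, f x ∂ν‖ ≤ a := norm_integral_le_integral_norm _
  have i1 : Integrable (fun x => ‖f x‖) ν := pow_cint ν hf.norm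
  have i2 : Integrable (fun x => ‖f x‖ ^ 2) ν := pow_cint ν (hf.norm.pow 2)
  have h2 : ∫ x, (2 * a * ‖f x‖ - a ^ 2) ∂ν ≤ ∫ x, ‖f x‖ ^ 2 ∂ν := by
    refine integral_mono ((i1.const_mul _).sub (integrable_const _)) i2 fun x => ?_
    simp only []
    nlinarith [sq_nonneg (‖f x‖ - a)]
  rw [integral_sub (i1.const_mul _) (integrable_const _), integral_const_mul, ← ha] at h2
  simp only [integral_const, probReal_univ, one_smul] at h2
  have h3 : ‖∫ x, f x ∂ν‖ ^ 2 ≤ a ^ 2 := pow_le_pow_left₀ (norm_nonneg _) h1 2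
  nlinarith

theorem pow_mean_sq (N : ℕ) (z : ℕ → ℂ) :
    ‖(N : ℂ)⁻¹ * ∑ n ∈ Finset.range N, z n‖ ^ 2 ≤ (N : ℝ)⁻¹ * ∑ n ∈ Finset.range N, ‖z n‖ ^ 2 := by
  rcases Nat.eq_zero_or_pos N with h | h
  · subst h
    simp
  have hN : (0 : ℝ) < N := by exact_mod_cast h
  rw [norm_mul, norm_inv, Complex.norm_natCast, mul_pow]
  have h1 : ‖∑ n ∈ Finset.range N, z n‖ ≤ ∑ n ∈ Finset.range N, ‖z n‖ := norm_sum_le _ _
  have h2 : (∑ n ∈ Finset.range N, ‖z n‖) ^ 2 ≤ (N : ℝ) * ∑ n ∈ Finset.range N, ‖z n‖ ^ 2 := by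
    have := sq_sum_le_card_mul_sum_sq (s := Finset.range N) (f := fun n => ‖z n‖)
    simpa using this
  have h3 : ‖∑ n ∈ Finset.range N, z n‖ ^ 2 ≤ (N : ℝ) * ∑ n ∈ Finset.range N, ‖z n‖ ^ 2 :=
    (pow_le_pow_left₀ (norm_nonneg _) h1 2).trans h2
  calc ((N : ℝ)⁻¹) ^ 2 * ‖∑ n ∈ Finset.range N, z n‖ ^ 2
      ≤ ((N : ℝ)⁻¹) ^ 2 * ((N : ℝ) * ∑ n ∈ Finset.range N, ‖z n‖ ^ 2) :=
        mul_le_mul_of_nonneg_left h3 (by positivity)
    _ = (N : ℝ)⁻¹ * ∑ n ∈ Finset.range N, ‖z n‖ ^ 2 := by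
        field_simp

/-- shift of an average -/
theorem pow_shift (c : ℕ → ℂ) (hc : ∀ n, ‖c n‖ ≤ 1) (N t : ℕ) :
    ‖∑ n ∈ Finset.range N, c (n + t) - ∑ n ∈ Finset.range N, c n‖ ≤ 2 * t := by
  have h1 : ∑ n ∈ Finset.range N, c (n + t) + ∑ n ∈ Finset.range t, c n =
      ∑ n ∈ Finset.range N, c n + ∑ n ∈ Finset.range t, c (n + N) := by
    rw [add_comm (∑ n ∈ Finset.range N, c (n + t))]
    have e1 := Finset.sum_range_add c t N
    have e2 := Finset.sum_range_add c N t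
    have e3 : ∑ x ∈ Finset.range N, c (t + x) = ∑ n ∈ Finset.range N, c (n + t) :=
      Finset.sum_congr rfl fun x _ => by rw [add_comm]
    have e4 : ∑ x ∈ Finset.range t, c (N + x) = ∑ n ∈ Finset.range t, c (n + N) :=
      Finset.sum_congr rfl fun x _ => by rw [add_comm]
    rw [e3] at e1
    rw [e4] at e2
    rw [← e1, ← e2, add_comm t N]
  have h2 : ∑ n ∈ Finset.range N, c (n + t) - ∑ n ∈ Finset.range N, c n =
      ∑ n ∈ Finset.range t, c (n + N) - ∑ n ∈ Finset.range t, c n := by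
    linear_combination h1
  rw [h2]
  have b1 : ‖∑ n ∈ Finset.range t, c (n + N)‖ ≤ t := by
    refine (norm_sum_le _ _).trans ?_
    refine (Finset.sum_le_sum fun n _ => hc (n + N)).trans ?_
    simp
  have b2 : ‖∑ n ∈ Finset.range t, c n‖ ≤ t := by
    refine (norm_sum_le _ _).trans ?_
    refine (Finset.sum_le_sum fun n _ => hc n).trans ?_
    simp
  calc _ ≤ ‖∑ n ∈ Finset.range t, c (n + N)‖ + ‖∑ n ∈ Finset.range t, c n‖ := norm_sub_le _ _
    _ ≤ 2 * t := by linarith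

theorem powC_norm (ν : Measure UnitAddCircle) [IsProbabilityMeasure ν] (j : ℤ) :
    ‖powC ν j‖ ≤ 1 := by
  unfold powC
  have h := norm_integral_le_of_norm_le_const (μ := ν) (C := 1)
    (f := fun x : UnitAddCircle => (fourier j x : ℂ))
    (Eventually.of_forall fun x => by rw [fourier_apply, Circle.norm_coe])
  simpa using h

theorem pow_A (p q : ℕ) (μ : PP p) (ν : Measure UnitAddCircle)
    (hν : ν = ((μ.1 : ProbabilityMeasure UnitAddCircle) : Measure UnitAddCircle))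
    (hA : ∀ k : ℕ, 1 ≤ k → Tendsto (fun N : ℕ => Av q k N (fc μ)) atTop (𝓝 0)) (j : ℤ)
    (hj : j ≠ 0) : Tendsto (fun N : ℕ => (N : ℂ)⁻¹ * ∑ n ∈ Finset.range N,
      powC ν (j * (q : ℤ) ^ n)) atTop (𝓝 0) := by
  have key : ∀ k : ℕ, 1 ≤ k → Tendsto (fun N : ℕ => (N : ℂ)⁻¹ * ∑ n ∈ Finset.range N,
      powC ν ((k : ℤ) * (q : ℤ) ^ n)) atTop (𝓝 0) := by
    intro k hk
    refine (hA k hk).congr fun N => ?_
    unfold Av
    congr 1
    refine Finset.sum_congr rfl fun n _ => ?_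
    unfold fc powC
    rw [hν]
    push_cast
    rfl
  rcases lt_or_gt_of_ne hj with h | h
  · obtain ⟨k, hk⟩ : ∃ k : ℕ, j = -(k : ℤ) := ⟨j.natAbs, by omega⟩
    have hk1 : 1 ≤ k := by omega
    have h1 := (Complex.continuous_conj.tendsto 0).comp (key k hk1)
    rw [map_zero] at h1
    refine h1.congr fun N => ?_
    simp only [Function.comp]
    rw [map_mul, map_sum, map_inv₀, Complex.conj_natCast]
    congr 1
    refine Finset.sum_congr rfl fun n _ => ?_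
    rw [← powC_neg, hk, neg_mul]
  · obtain ⟨k, hk⟩ : ∃ k : ℕ, j = (k : ℤ) := ⟨j.natAbs, by omega⟩
    rw [hk]
    exact key k (by omega)

theorem pow_B (q m : ℕ) (hm : 1 ≤ m) (ν : Measure UnitAddCircle) (j : ℤ)
    (hA : Tendsto (fun N : ℕ => (N : ℂ)⁻¹ * ∑ n ∈ Finset.range N,
      powC ν (j * (q : ℤ) ^ n)) atTop (𝓝 0)) :
    Tendsto (fun N : ℕ => (N : ℂ)⁻¹ * ∑ n ∈ Finset.range (m * N),
      powC ν (j * (q : ℤ) ^ n)) atTop (𝓝 0) := by
  have h0 : Tendsto (fun N : ℕ => m * N) atTop atTop :=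
    tendsto_id.const_mul_atTop' (by omega)
  have h1 := (hA.comp h0).const_mul (m : ℂ)
  rw [mul_zero] at h1
  refine h1.congr fun N => ?_
  simp only [Function.comp]
  have hm0 : (m : ℂ) ≠ 0 := by exact_mod_cast (by omega : m ≠ 0)
  push_cast
  rw [mul_inv, ← mul_assoc, ← mul_assoc, mul_inv_cancel₀ hm0, one_mul]

theorem pow_sub (m : ℕ) (hm : 1 ≤ m) (H : ℕ → ℝ) (hH : ∀ n, 0 ≤ H n) (N : ℕ) :
    ∑ n ∈ Finset.range N, H (m * n) ≤ ∑ n ∈ Finset.range (m * N), H n := by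
  induction N with
  | zero => simp
  | succ N ih =>
    rw [Finset.sum_range_succ, Nat.mul_succ, Finset.sum_range_add]
    have h1 : H (m * N) ≤ ∑ x ∈ Finset.range m, H (m * N + x) := by
      have := Finset.single_le_sum (f := fun x => H (m * N + x)) (s := Finset.range m)
        (fun i _ => hH _) (Finset.mem_range.2 (by omega : 0 < m))
      simpa using this
    linarith

/-- the trigonometric polynomial -/
noncomputable def powG (k Q T : ℕ) (y : UnitAddCircle) : ℂ :=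
  ∑ t ∈ Finset.range T, (fourier (k : ℤ) ((Q ^ t) • y) : ℂ)

theorem powG_cont (k Q T : ℕ) : Continuous (powG k Q T) := by
  unfold powG
  fun_prop

theorem powG_sq (k Q T a : ℕ) (x : UnitAddCircle) :
    ((‖powG k Q T (a • x)‖ ^ 2 : ℝ) : ℂ) = ∑ s ∈ Finset.range T, ∑ t ∈ Finset.range T,
      (fourier (((k : ℤ) * (Q : ℤ) ^ s - (k : ℤ) * (Q : ℤ) ^ t) * (a : ℤ)) x : ℂ) := by
  have h1 : ((‖powG k Q T (a • x)‖ ^ 2 : ℝ) : ℂ) =
      powG k Q T (a • x) * (starRingEnd ℂ) (powG k Q T (a • x)) := by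
    rw [Complex.mul_conj']
    push_cast
    rfl
  rw [h1]
  unfold powG
  rw [map_sum, Finset.sum_mul_sum]
  refine Finset.sum_congr rfl fun s _ => Finset.sum_congr rfl fun t _ => ?_
  rw [pow_four, pow_four, pow_four, pow_four, ← fourier_neg, ← fourier_add]
  have e : (k : ℤ) * ((Q ^ s : ℕ) : ℤ) * (a : ℤ) + -((k : ℤ) * ((Q ^ t : ℕ) : ℤ) * (a : ℤ)) =
      ((k : ℤ) * (Q : ℤ) ^ s - (k : ℤ) * (Q : ℤ) ^ t) * (a : ℤ) := by
    push_cast
    ring
  rw [e]

theorem powG_int (ν : Measure UnitAddCircle) [IsProbabilityMeasure ν] (k Q T a : ℕ) :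
    ((∫ x, ‖powG k Q T (a • x)‖ ^ 2 ∂ν : ℝ) : ℂ) = ∑ s ∈ Finset.range T, ∑ t ∈ Finset.range T,
      powC ν (((k : ℤ) * (Q : ℤ) ^ s - (k : ℤ) * (Q : ℤ) ^ t) * (a : ℤ)) := by
  rw [← integral_complex_ofReal]
  simp only [powG_sq]
  rw [integral_finsetSum]
  · refine Finset.sum_congr rfl fun s _ => ?_
    rw [integral_finsetSum]
    · rfl
    · intro t _
      exact pow_cint ν (by fun_prop)
  · intro s _
    exact pow_cint ν (by fun_prop)

theorem pow_lim (p q m : ℕ) (μ : PP p) (hq : 2 ≤ q) (hm : 1 ≤ m) (ν : Measure UnitAddCircle)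
    [IsProbabilityMeasure ν]
    (hν : ν = ((μ.1 : ProbabilityMeasure UnitAddCircle) : Measure UnitAddCircle))
    (hA : ∀ k : ℕ, 1 ≤ k → Tendsto (fun N : ℕ => Av q k N (fc μ)) atTop (𝓝 0))
    (k : ℕ) (hk : 1 ≤ k) (T : ℕ) :
    Tendsto (fun N : ℕ => (N : ℝ)⁻¹ * ∑ n ∈ Finset.range (m * N),
      ∫ x, ‖powG k (q ^ m) T ((q ^ n) • x)‖ ^ 2 ∂ν) atTop (𝓝 ((m : ℝ) * T)) := by
  have h1 : Tendsto (fun N : ℕ => ∑ s ∈ Finset.range T, ∑ t ∈ Finset.range T,
      ((N : ℂ)⁻¹ * ∑ n ∈ Finset.range (m * N), powC ν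
        (((k : ℤ) * ((q ^ m : ℕ) : ℤ) ^ s - (k : ℤ) * ((q ^ m : ℕ) : ℤ) ^ t) * (q : ℤ) ^ n))) atTop
      (𝓝 (∑ s ∈ Finset.range T, ∑ t ∈ Finset.range T, if s = t then (m : ℂ) else 0)) := by
    refine tendsto_finsetSum _ fun s _ => tendsto_finsetSum _ fun t _ => ?_
    by_cases hst : s = t
    · subst hst
      simp only [sub_self, zero_mul, powC_zero, Finset.sum_const, Finset.card_range, nsmul_eq_mul,
        mul_one, if_true]
      refine tendsto_const_nhds.congr' ?_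
      filter_upwards [eventually_ge_atTop 1] with N hN
      have hN0 : (N : ℂ) ≠ 0 := by exact_mod_cast (by omega : N ≠ 0)
      push_cast
      field_simp
    · rw [if_neg hst]
      refine pow_B q m hm ν _ (pow_A p q μ ν hν hA _ ?_)
      intro h0
      have h2 : (k : ℤ) * ((q ^ m : ℕ) : ℤ) ^ s = (k : ℤ) * ((q ^ m : ℕ) : ℤ) ^ t := by linarith
      have h3 : (k : ℤ) ≠ 0 := by exact_mod_cast (by omega : k ≠ 0)
      have h4 := mul_left_cancel₀ h3 h2
      have h5 : (q ^ m) ^ s = (q ^ m) ^ t := by exact_mod_cast h4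
      have h6 : 2 ≤ q ^ m := le_trans hq (Nat.le_self_pow (by omega) q)
      exact hst (Nat.pow_right_injective h6 h5)
  have h2 : (∑ s ∈ Finset.range T, ∑ t ∈ Finset.range T, if s = t then (m : ℂ) else 0) =
      (((m : ℝ) * T : ℝ) : ℂ) := by
    have : ∀ s ∈ Finset.range T, (∑ t ∈ Finset.range T, if s = t then (m : ℂ) else 0) = m := by
      intro s hs
      rw [Finset.sum_ite_eq, if_pos hs]
    rw [Finset.sum_congr rfl this]
    simp [mul_comm]
  rw [h2] at h1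
  have h3 := (Complex.continuous_re.tendsto _).comp h1
  rw [Complex.ofReal_re] at h3
  refine h3.congr fun N => ?_
  simp only [Function.comp]
  have h4 : (∑ s ∈ Finset.range T, ∑ t ∈ Finset.range T,
      ((N : ℂ)⁻¹ * ∑ n ∈ Finset.range (m * N), powC ν
        (((k : ℤ) * ((q ^ m : ℕ) : ℤ) ^ s - (k : ℤ) * ((q ^ m : ℕ) : ℤ) ^ t) * (q : ℤ) ^ n))) =
      (((N : ℝ)⁻¹ * ∑ n ∈ Finset.range (m * N),
        ∫ x, ‖powG k (q ^ m) T ((q ^ n) • x)‖ ^ 2 ∂ν : ℝ) : ℂ) := by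
    have h5 : ∀ n : ℕ, ((∫ x, ‖powG k (q ^ m) T ((q ^ n) • x)‖ ^ 2 ∂ν : ℝ) : ℂ) =
        ∑ s ∈ Finset.range T, ∑ t ∈ Finset.range T, powC ν
          (((k : ℤ) * ((q ^ m : ℕ) : ℤ) ^ s - (k : ℤ) * ((q ^ m : ℕ) : ℤ) ^ t) * (q : ℤ) ^ n) := by
      intro n
      rw [powG_int]
      push_cast
      rfl
    rw [Complex.ofReal_mul, Complex.ofReal_sum]
    simp only [h5]
    simp only [← Finset.mul_sum]
    rw [Complex.ofReal_inv, Complex.ofReal_natCast]
    congr 1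
    rw [Finset.sum_congr rfl fun s _ => Finset.sum_comm]
    exact Finset.sum_comm
  rw [h4, Complex.ofReal_re]

theorem pow_thm : POWS := by
  intro p q m μ hq hm hA k hk
  obtain ⟨ν, hν⟩ : ∃ ν : Measure UnitAddCircle,
    ν = ((μ.1 : ProbabilityMeasure UnitAddCircle) : Measure UnitAddCircle) := ⟨_, rfl⟩
  have : IsProbabilityMeasure ν := by rw [hν]; infer_instance
  have hc1 : ∀ j : ℕ, fc μ j = powC ν (j : ℤ) := by
    intro j
    rw [hν]
    rfl
  set Q : ℕ := q ^ m with hQ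
  rw [Metric.tendsto_atTop]
  intro ε hε
  obtain ⟨T, hT⟩ := exists_nat_gt (4 * m / ε ^ 2)
  have hm0 : (0 : ℝ) < m := by exact_mod_cast hm
  have hT0 : (0 : ℝ) < T := lt_trans (by positivity) hT
  have hT1 : (m : ℝ) * T < (ε * T / 2) ^ 2 := by
    rw [div_lt_iff₀ (by positivity)] at hT
    nlinarith
  have hlim := pow_lim p q m μ hq hm ν hν hA k hk T
  have ev1 := hlim.eventually (gt_mem_nhds hT1)
  have ev2 : ∀ᶠ N : ℕ in atTop, 2 * (T : ℝ) ^ 2 / N < ε * T / 2 := by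
    have h0 : Tendsto (fun N : ℕ => 2 * (T : ℝ) ^ 2 / (N : ℝ)) atTop (𝓝 0) :=
      tendsto_const_nhds.div_atTop tendsto_natCast_atTop_atTop
    exact h0.eventually (gt_mem_nhds (by positivity))
  obtain ⟨N0, hN0⟩ := eventually_atTop.1 ((ev1.and ev2).and (eventually_ge_atTop 1))
  refine ⟨N0, fun N hN => ?_⟩
  obtain ⟨⟨b1, b2⟩, b3⟩ := hN0 N hN
  have hNp : (0 : ℝ) < N := by exact_mod_cast b3
  rw [dist_zero_right]
  -- the integrals of the trigonometric polynomial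
  set z : ℕ → ℂ := fun n => ∫ x, powG k Q T ((Q ^ n) • x) ∂ν with hz
  set H : ℕ → ℝ := fun n => ∫ x, ‖powG k Q T ((q ^ n) • x)‖ ^ 2 ∂ν with hH
  have hHn : ∀ n, 0 ≤ H n := fun n => integral_nonneg fun x => by positivity
  have hzH : ∀ n, ‖z n‖ ^ 2 ≤ H (m * n) := by
    intro n
    have h1 := pow_cs ν (f := fun x => powG k Q T ((Q ^ n) • x))
      ((powG_cont k Q T).comp (by fun_prop))
    have h2 : q ^ (m * n) = Q ^ n := by rw [hQ, pow_mul]
    simp only [hz, hH, h2]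
    exact h1
  have hzc : ∀ n, z n = ∑ t ∈ Finset.range T, fc μ (k * Q ^ (n + t)) := by
    intro n
    simp only [hz]
    unfold powG
    rw [integral_finsetSum]
    · refine Finset.sum_congr rfl fun t _ => ?_
      rw [hc1]
      unfold powC
      refine integral_congr_ae (Eventually.of_forall fun x => ?_)
      simp only []
      rw [pow_four, pow_four]
      have e : (k : ℤ) * ((Q ^ t : ℕ) : ℤ) * ((Q ^ n : ℕ) : ℤ) = ((k * Q ^ (n + t) : ℕ) : ℤ) := by
        push_cast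
        ring
      rw [e]
    · intro t _
      exact pow_cint ν (by fun_prop)
  have s1 : ‖(N : ℂ)⁻¹ * ∑ n ∈ Finset.range N, z n‖ ^ 2 < (ε * T / 2) ^ 2 := by
    refine lt_of_le_of_lt (pow_mean_sq N z) (lt_of_le_of_lt ?_ b1)
    refine mul_le_mul_of_nonneg_left ?_ (by positivity)
    exact (Finset.sum_le_sum fun n _ => hzH n).trans (pow_sub m hm H hHn N)
  have s2 : ‖(N : ℂ)⁻¹ * ∑ n ∈ Finset.range N, z n‖ < ε * T / 2 :=
    lt_of_pow_lt_pow_left₀ 2 (by positivity) s1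
  have s3 : ‖∑ n ∈ Finset.range N, z n - (T : ℂ) * ∑ n ∈ Finset.range N, fc μ (k * Q ^ n)‖ ≤
      2 * (T : ℝ) ^ 2 := by
    have e1 : ∑ n ∈ Finset.range N, z n =
        ∑ t ∈ Finset.range T, ∑ n ∈ Finset.range N, fc μ (k * Q ^ (n + t)) := by
      simp only [hzc]
      exact Finset.sum_comm
    have e2 : (T : ℂ) * ∑ n ∈ Finset.range N, fc μ (k * Q ^ n) =
        ∑ t ∈ Finset.range T, ∑ n ∈ Finset.range N, fc μ (k * Q ^ n) := by
      rw [Finset.sum_const, Finset.card_range, nsmul_eq_mul]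
    rw [e1, e2, ← Finset.sum_sub_distrib]
    refine (norm_sum_le _ _).trans ?_
    have e3 : ∀ t ∈ Finset.range T, ‖∑ n ∈ Finset.range N, fc μ (k * Q ^ (n + t)) -
        ∑ n ∈ Finset.range N, fc μ (k * Q ^ n)‖ ≤ 2 * (T : ℝ) := by
      intro t ht
      have h2 : (t : ℝ) ≤ T := by exact_mod_cast (Finset.mem_range.1 ht).le
      refine le_trans (pow_shift (fun n => fc μ (k * Q ^ n)) (fun n => by
        simp only [hc1]
        exact powC_norm ν _) N t) ?_
      linarith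
    refine (Finset.sum_le_sum e3).trans ?_
    rw [Finset.sum_const, Finset.card_range, nsmul_eq_mul]
    apply le_of_eq
    ring
  have s4 : (T : ℂ) * Av Q k N (fc μ) = (N : ℂ)⁻¹ * ∑ n ∈ Finset.range N, z n -
      (N : ℂ)⁻¹ * (∑ n ∈ Finset.range N, z n -
        (T : ℂ) * ∑ n ∈ Finset.range N, fc μ (k * Q ^ n)) := by
    unfold Av
    ring
  have s5 : (T : ℝ) * ‖Av Q k N (fc μ)‖ < ε * T := by
    have h1 : (T : ℝ) * ‖Av Q k N (fc μ)‖ = ‖(T : ℂ) * Av Q k N (fc μ)‖ := by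
      rw [norm_mul, Complex.norm_natCast]
    rw [h1, s4]
    refine lt_of_le_of_lt (norm_sub_le _ _) ?_
    have h2 : ‖(N : ℂ)⁻¹ * (∑ n ∈ Finset.range N, z n -
        (T : ℂ) * ∑ n ∈ Finset.range N, fc μ (k * Q ^ n))‖ ≤ 2 * (T : ℝ) ^ 2 / N := by
      rw [norm_mul, norm_inv, Complex.norm_natCast, inv_mul_eq_div]
      exact div_le_div_of_nonneg_right s3 hNp.le
    linarith
  nlinarith

end Pool.UCR
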